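import Mathlib
import Pool.Agent.H868R3.GPC.SmallMain
import Pool.Agent.H340R2.LW

/-!
# Galois-stable families of gamma products
-/

set_option autoImplicit false

namespace Pool.Agent.H868R3.GAM

/-- `q` is an integer. -/
def IsInt (q : ℚ) : Prop := ∃ z : ℤ, q = z

/-- `D * q` is an integer. -/
def Lev (D : ℕ) (q : ℚ) : Prop := ∃ z : ℤ, (D : ℚ) * q = z

open Classical in
/-- The value `Γ({q})`, or `1` if `q` is an integer. -/
noncomputable def gam (q : ℚ) : ℝ :=
  if IsInt q then 1 else Real.Gamma ((Int.fract q : ℚ) : ℝ)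

theorem isInt_iff_fract (q : ℚ) : IsInt q ↔ Int.fract q = 0 := by
  rw [Int.fract_eq_zero_iff]
  constructor
  · rintro ⟨z, hz⟩
    exact ⟨z, hz.symm⟩
  · rintro ⟨z, hz⟩
    exact ⟨z, hz.symm⟩

theorem gam_congr {p q : ℚ} (h : Int.fract p = Int.fract q) : gam p = gam q := by
  unfold gam
  rw [isInt_iff_fract, isInt_iff_fract, h]

theorem fract_pos' {q : ℚ} (h : ¬ IsInt q) : 0 < Int.fract q :=
  lt_of_le_of_ne (Int.fract_nonneg q) (fun h1 => h ((isInt_iff_fract q).2 h1.symm))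

theorem gam_pos (q : ℚ) : 0 < gam q := by
  unfold gam
  split_ifs with h
  · exact one_pos
  · apply Real.Gamma_pos_of_pos
    exact_mod_cast fract_pos' h

/-- Shifting the argument by an integer multiplies the value by a rational number. -/
theorem gamma_shift (s : ℚ) (hs : ¬ IsInt s) (n : ℤ) :
    ∃ t : ℚ, t ≠ 0 ∧ Real.Gamma (((s + n : ℚ)) : ℝ) = t * Real.Gamma (s : ℝ) := by
  have hne : ∀ n : ℤ, s + n ≠ 0 := by
    intro n h
    apply hs
    refine ⟨-n, ?_⟩
    push_cast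
    linarith
  induction n using Int.induction_on with
  | zero => exact ⟨1, one_ne_zero, by simp⟩
  | succ i ih =>
    obtain ⟨t, ht0, ht⟩ := ih
    refine ⟨(s + (i : ℤ)) * t, mul_ne_zero (hne _) ht0, ?_⟩
    have h1 : (((s + ((i : ℤ) : ℚ) : ℚ)) : ℝ) ≠ 0 := by
      exact_mod_cast hne i
    have h2 := Real.Gamma_add_one h1
    rw [ht] at h2
    have h3 : (((s + (((i : ℤ) + 1 : ℤ) : ℚ) : ℚ)) : ℝ) = ((s + ((i : ℤ) : ℚ) : ℚ) : ℝ) + 1 := by
      push_cast
      ring
    rw [h3, h2]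
    push_cast
    ring
  | pred i ih =>
    obtain ⟨t, ht0, ht⟩ := ih
    have hq := hne (-(i : ℤ) - 1)
    refine ⟨(s + ((-(i : ℤ) - 1 : ℤ) : ℚ))⁻¹ * t, mul_ne_zero (inv_ne_zero hq) ht0, ?_⟩
    have h1 : (((s + ((-(i : ℤ) - 1 : ℤ) : ℚ) : ℚ)) : ℝ) ≠ 0 := by
      exact_mod_cast hq
    have h2 := Real.Gamma_add_one h1
    have h3 : (((s + ((-(i : ℤ) - 1 : ℤ) : ℚ) : ℚ)) : ℝ) + 1 = ((s + ((-(i : ℤ) : ℤ) : ℚ) : ℚ) : ℝ) := by
      push_cast
      ring
    rw [h3, ht] at h2
    rw [Rat.cast_mul, Rat.cast_inv, mul_assoc, h2, inv_mul_cancel_left₀ h1]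

/-- Replacing `Γ(q)` by the normalised value changes it by a nonzero rational factor. -/
theorem gamma_gam (q : ℚ) (hq : ∀ n : ℕ, q ≠ -(n : ℚ)) :
    ∃ t : ℚ, t ≠ 0 ∧ Real.Gamma (q : ℝ) = t * gam q := by
  by_cases h : IsInt q
  · obtain ⟨z, rfl⟩ := h
    have hz : 0 < z := by
      by_contra hneg
      apply hq (-z).toNat
      have : (((-z).toNat : ℕ) : ℤ) = -z := Int.toNat_of_nonneg (by omega)
      have h2 : (((-z).toNat : ℕ) : ℚ) = -(z : ℚ) := by
        exact_mod_cast this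
      rw [h2, neg_neg]
    obtain ⟨n, hn⟩ : ∃ n : ℕ, z = (n : ℤ) + 1 := ⟨(z - 1).toNat, by omega⟩
    subst hn
    refine ⟨(n.factorial : ℚ), by exact_mod_cast n.factorial_ne_zero, ?_⟩
    have h3 : gam (((n : ℤ) + 1 : ℤ) : ℚ) = 1 := by
      unfold gam
      rw [if_pos ⟨_, rfl⟩]
    rw [h3, mul_one]
    have := Real.Gamma_nat_eq_factorial n
    push_cast
    exact this
  · have hf : ¬ IsInt (Int.fract q) := by
      rw [isInt_iff_fract, Int.fract_fract]
      exact (fract_pos' h).ne'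
    obtain ⟨t, ht0, ht⟩ := gamma_shift (Int.fract q) hf ⌊q⌋
    refine ⟨t, ht0, ?_⟩
    rw [Int.fract_add_floor] at ht
    rw [ht]
    unfold gam
    rw [if_neg h]

/-- The reflection formula for the normalised values. -/
theorem gam_neg (q : ℚ) : ∃ α : ℝ, IsAlgebraic ℚ α ∧ α ≠ 0 ∧
    gam q * gam (-q) = α * (if Int.fract q = 0 then 1 else Real.pi) := by
  by_cases h : IsInt q
  · have h' : IsInt (-q) := by
      obtain ⟨z, rfl⟩ := h
      exact ⟨-z, by push_cast; ring⟩
    refine ⟨1, isAlgebraic_one, one_ne_zero, ?_⟩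
    unfold gam
    rw [if_pos h, if_pos h', if_pos ((isInt_iff_fract q).1 h)]
  · have h' : ¬ IsInt (-q) := by
      rintro ⟨z, hz⟩
      exact h ⟨-z, by push_cast; linarith⟩
    have hfr : Int.fract (-q) = 1 - Int.fract q :=
      Int.fract_neg (fun h0 => h ((isInt_iff_fract q).2 h0))
    have hpos := fract_pos' h
    have hlt := Int.fract_lt_one q
    set s : ℚ := Int.fract q with hs
    have hsin : 0 < Real.sin (Real.pi * (s : ℝ)) := by
      apply Real.sin_pos_of_pos_of_lt_pi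
      · exact mul_pos Real.pi_pos (by exact_mod_cast hpos)
      · have : (s : ℝ) < 1 := by exact_mod_cast hlt
        nlinarith [Real.pi_pos]
    refine ⟨(Real.sin (Real.pi * (s : ℝ)))⁻¹, ?_, inv_ne_zero hsin.ne', ?_⟩
    · apply IsAlgebraic.inv
      have := (Real.isAlgebraic_sin_rat_mul_pi s).extendScalars
        (algebraMap ℤ ℚ).injective_int
      rwa [mul_comm] at this
    · have h1 : gam q = Real.Gamma (s : ℝ) := by
        unfold gam
        rw [if_neg h]
      have h2 : gam (-q) = Real.Gamma (1 - (s : ℝ)) := by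
        unfold gam
        rw [if_neg h', hfr]
        push_cast
        rfl
      rw [h1, h2, Real.Gamma_mul_Gamma_one_sub, if_neg hpos.ne', div_eq_inv_mul]

end Pool.Agent.H868R3.GAM
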