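import Mathlib
import Pool.Agent.H868R3.GAM.Core

/-!
# Gamma monomials with all conjugates algebraic form a stable space
-/

set_option autoImplicit false
set_option linter.unusedSectionVars false

namespace Pool.Agent.H868R3.GAM

theorem fract_congr (D : ℕ) (a b : ℤ) (h : (a : ZMod D) = (b : ZMod D)) (q : ℚ) (hq : Lev D q) :
    Int.fract ((a : ℚ) * q) = Int.fract ((b : ℚ) * q) := by
  obtain ⟨z, hz⟩ := hq
  rw [ZMod.intCast_eq_intCast_iff_dvd_sub] at h
  obtain ⟨k, hk⟩ := h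
  have h1 : (b : ℚ) = a + (D : ℚ) * k := by
    have : b = a + (D : ℤ) * k := by omega
    exact_mod_cast this
  have h2 : (b : ℚ) * q = (a : ℚ) * q + ((k * z : ℤ) : ℚ) := by
    rw [h1]
    push_cast
    rw [← hz]
    ring
  rw [h2, Int.fract_add_intCast]

section

variable (D : ℕ) [NeZero D]

/-- The representative of a residue class. -/
def rep (x : (ZMod D)ˣ) : ℤ := (((x : ZMod D).val : ℕ) : ℤ)

theorem rep_cast (x : (ZMod D)ˣ) : ((rep D x : ℤ) : ZMod D) = (x : ZMod D) := by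
  unfold rep
  rw [Int.cast_natCast, ZMod.natCast_val, ZMod.cast_id', id]

theorem lev_mul (n : ℤ) {q : ℚ} (hq : Lev D q) : Lev D ((n : ℚ) * q) := by
  obtain ⟨z, hz⟩ := hq
  refine ⟨n * z, ?_⟩
  push_cast
  rw [← hz]
  ring

theorem lev_neg {q : ℚ} (hq : Lev D q) : Lev D (-q) := by
  obtain ⟨z, hz⟩ := hq
  refine ⟨-z, ?_⟩
  push_cast
  rw [← hz]
  ring

theorem fract_mul (x y : (ZMod D)ˣ) {q : ℚ} (hq : Lev D q) :
    Int.fract ((rep D (x * y) : ℚ) * q) = Int.fract ((rep D y : ℚ) * ((rep D x : ℚ) * q)) := by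
  have h1 : (((rep D (x * y)) : ℤ) : ZMod D) = ((rep D y * rep D x : ℤ) : ZMod D) := by
    rw [rep_cast, Int.cast_mul, rep_cast, rep_cast, Units.val_mul, mul_comm]
  rw [fract_congr D _ _ h1 q hq]
  push_cast
  rw [mul_assoc]

theorem fract_cc (x : (ZMod D)ˣ) {q : ℚ} (hq : Lev D q) :
    Int.fract ((rep D (-1 * x) : ℚ) * q) = Int.fract (-((rep D x : ℚ) * q)) := by
  have h1 : (((rep D (-1 * x)) : ℤ) : ZMod D) = ((-rep D x : ℤ) : ZMod D) := by
    rw [rep_cast, Int.cast_neg, rep_cast, Units.val_mul, Units.val_neg, Units.val_one, neg_one_mul]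
  rw [fract_congr D _ _ h1 q hq]
  push_cast
  rw [neg_mul]

theorem isInt_mul (x : (ZMod D)ˣ) {q : ℚ} (hq : Lev D q) :
    IsInt ((rep D x : ℚ) * q) ↔ IsInt q := by
  constructor
  · rintro ⟨z, hz⟩
    have h1 := fract_mul D x x⁻¹ hq
    rw [mul_inv_cancel, hz] at h1
    have h2 : Int.fract ((rep D x⁻¹ : ℚ) * (z : ℚ)) = 0 := by
      have : (rep D x⁻¹ : ℚ) * (z : ℚ) = ((rep D x⁻¹ * z : ℤ) : ℚ) := by push_cast; rfl
      rw [this, Int.fract_intCast]
    rw [h2] at h1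
    have h3 : ((rep D 1 : ℤ) : ZMod D) = ((1 : ℤ) : ZMod D) := by
      rw [rep_cast, Units.val_one, Int.cast_one]
    rw [fract_congr D _ _ h3 q hq, Int.cast_one, one_mul] at h1
    exact (isInt_iff_fract q).2 h1
  · rintro ⟨z, rfl⟩
    exact ⟨rep D x * z, by push_cast; rfl⟩

variable {ι : Type} [Fintype ι] {κ : Type} [Fintype κ]

/-- The function attached to a family of rational numbers. -/
noncomputable def T (a : ι → ℚ) (x : (ZMod D)ˣ) : ℚ :=
  ∑ i, (Int.fract ((rep D x : ℚ) * a i) - 1 / 2)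

/-- The conjugates of the normalised product of gamma values. -/
noncomputable def P (a : ι → ℚ) (x : (ZMod D)ˣ) : ℝ :=
  ∏ i, (gam ((rep D x : ℚ) * a i) / Real.sqrt Real.pi)

/-- A family of non-integers of level `D` all of whose conjugate products are algebraic. -/
def Good (a : ι → ℚ) : Prop :=
  (∀ i, Lev D (a i)) ∧ (∀ i, ¬ IsInt (a i)) ∧ ∀ x, IsAlgebraic ℚ (P D a x)

theorem P_ne (a : ι → ℚ) (x : (ZMod D)ˣ) : P D a x ≠ 0 := by
  unfold P
  refine Finset.prod_ne_zero_iff.2 (fun i _ => ?_)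
  exact div_ne_zero (gam_pos _).ne' (Real.sqrt_pos.2 Real.pi_pos).ne'

theorem T_sum (a : ι → ℚ) (b : κ → ℚ) (x : (ZMod D)ˣ) :
    T D (Sum.elim a b) x = T D a x + T D b x := by
  unfold T
  rw [Fintype.sum_sum_type]
  rfl

theorem P_sum (a : ι → ℚ) (b : κ → ℚ) (x : (ZMod D)ˣ) :
    P D (Sum.elim a b) x = P D a x * P D b x := by
  unfold P
  rw [Fintype.prod_sum_type]
  rfl

theorem good_sum {a : ι → ℚ} {b : κ → ℚ} (ha : Good D a) (hb : Good D b) :
    Good D (Sum.elim a b) := by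
  refine ⟨?_, ?_, ?_⟩
  · rintro (i | i)
    · exact ha.1 i
    · exact hb.1 i
  · rintro (i | i)
    · exact ha.2.1 i
    · exact hb.2.1 i
  · intro x
    rw [P_sum]
    exact (ha.2.2 x).mul (hb.2.2 x)

theorem T_rep (k : ℕ) (a : ι → ℚ) (x : (ZMod D)ˣ) :
    T D (fun p : ι × Fin k => a p.1) x = (k : ℚ) * T D a x := by
  unfold T
  rw [Fintype.sum_prod_type, Finset.mul_sum]
  refine Finset.sum_congr rfl (fun i _ => ?_)
  simp only [Finset.sum_const, Finset.card_univ, Fintype.card_fin, nsmul_eq_mul]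

theorem P_rep (k : ℕ) (a : ι → ℚ) (x : (ZMod D)ˣ) :
    P D (fun p : ι × Fin k => a p.1) x = (P D a x) ^ k := by
  unfold P
  rw [Fintype.prod_prod_type, ← Finset.prod_pow]
  refine Finset.prod_congr rfl (fun i _ => ?_)
  simp only [Finset.prod_const, Finset.card_univ, Fintype.card_fin]

theorem good_rep (k : ℕ) {a : ι → ℚ} (ha : Good D a) :
    Good D (fun p : ι × Fin k => a p.1) := by
  refine ⟨fun p => ha.1 p.1, fun p => ha.2.1 p.1, fun x => ?_⟩
  rw [P_rep]
  exact (ha.2.2 x).pow k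

theorem T_neg {a : ι → ℚ} (hint : ∀ i, ¬ IsInt (a i)) (hlev : ∀ i, Lev D (a i)) (x : (ZMod D)ˣ) :
    T D (fun i => -a i) x = -T D a x := by
  unfold T
  rw [← Finset.sum_neg_distrib]
  refine Finset.sum_congr rfl (fun i _ => ?_)
  rw [mul_neg, Int.fract_neg]
  · ring
  · intro h
    exact hint i ((isInt_mul D x (hlev i)).1 ((isInt_iff_fract _).2 h))

open Classical in
/-- The product of a monomial and its complex conjugate. -/
theorem P_mul_neg (a : ι → ℚ) (x : (ZMod D)ˣ) (hlev : ∀ i, Lev D (a i)) :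
    ∃ α : ℝ, IsAlgebraic ℚ α ∧ α ≠ 0 ∧
      P D a x * P D (fun i => -a i) x * Real.pi ^ (Finset.univ.filter (fun i => IsInt (a i))).card
        = α := by
  choose α hα hα0 hα1 using fun i => gam_neg ((rep D x : ℚ) * a i)
  refine ⟨∏ i, α i, ?_, Finset.prod_ne_zero_iff.2 (fun i _ => hα0 i), ?_⟩
  · refine Finset.prod_induction α (IsAlgebraic ℚ) (fun _ _ h1 h2 => h1.mul h2)
      isAlgebraic_one (fun i _ => hα i)
  · have h1 : Real.pi ^ (Finset.univ.filter (fun i => IsInt (a i))).card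
        = ∏ i, (if IsInt (a i) then Real.pi else 1) := by
      rw [Finset.prod_ite]
      simp
    have h2 : P D a x * P D (fun i => -a i) x * ∏ i, (if IsInt (a i) then Real.pi else 1)
        = ∏ i, α i := by
      unfold P
      rw [← Finset.prod_mul_distrib, ← Finset.prod_mul_distrib]
      refine Finset.prod_congr rfl (fun i _ => ?_)
      have hs : Real.sqrt Real.pi * Real.sqrt Real.pi = Real.pi :=
        Real.mul_self_sqrt Real.pi_pos.le
      have hs0 : Real.sqrt Real.pi ≠ 0 := (Real.sqrt_pos.2 Real.pi_pos).ne'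
      have h3 := hα1 i
      rw [mul_neg, div_mul_div_comm, hs, h3]
      have hi := isInt_mul D x (hlev i)
      rw [isInt_iff_fract] at hi
      by_cases hc : IsInt (a i)
      · rw [if_pos (hi.2 hc), if_pos hc]
        field_simp
      · rw [if_neg (fun h => hc (hi.1 h)), if_neg hc]
        field_simp
    rw [← h2, ← h1]

theorem isAlgebraic_neg {a : ι → ℚ} (x : (ZMod D)ˣ) (hlev : ∀ i, Lev D (a i))
    (hint : ∀ i, ¬ IsInt (a i)) (h : IsAlgebraic ℚ (P D a x)) :
    IsAlgebraic ℚ (P D (fun i => -a i) x) := by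
  classical
  obtain ⟨α, hα, hα0, h1⟩ := P_mul_neg D a x hlev
  have h2 : (Finset.univ.filter (fun i => IsInt (a i))) = ∅ := by
    refine Finset.filter_eq_empty_iff.2 (fun i _ => hint i)
  rw [h2, Finset.card_empty, pow_zero, mul_one] at h1
  have h3 : P D (fun i => -a i) x = (P D a x)⁻¹ * α := by
    rw [← h1, inv_mul_cancel_left₀ (P_ne D a x)]
  rw [h3]
  exact h.inv.mul hα

theorem good_neg {a : ι → ℚ} (ha : Good D a) : Good D (fun i => -a i) := by
  refine ⟨fun i => lev_neg D (ha.1 i), ?_, fun x => isAlgebraic_neg D x ha.1 ha.2.1 (ha.2.2 x)⟩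
  rintro i ⟨z, hz⟩
  exact ha.2.1 i ⟨-z, by push_cast; linarith⟩

theorem T_mul (u : (ZMod D)ˣ) {a : ι → ℚ} (hlev : ∀ i, Lev D (a i)) (x : (ZMod D)ˣ) :
    T D (fun i => (rep D u : ℚ) * a i) x = T D a (u * x) := by
  unfold T
  refine Finset.sum_congr rfl (fun i _ => ?_)
  rw [fract_mul D u x (hlev i)]

theorem P_mul (u : (ZMod D)ˣ) {a : ι → ℚ} (hlev : ∀ i, Lev D (a i)) (x : (ZMod D)ˣ) :
    P D (fun i => (rep D u : ℚ) * a i) x = P D a (u * x) := by
  unfold P
  refine Finset.prod_congr rfl (fun i _ => ?_)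
  rw [gam_congr (fract_mul D u x (hlev i))]

theorem good_mul (u : (ZMod D)ˣ) {a : ι → ℚ} (ha : Good D a) :
    Good D (fun i => (rep D u : ℚ) * a i) := by
  refine ⟨fun i => lev_mul D _ (ha.1 i), fun i h => ha.2.1 i ((isInt_mul D u (ha.1 i)).1 h), ?_⟩
  intro x
  rw [P_mul D u ha.1]
  exact ha.2.2 _

theorem T_cc {a : ι → ℚ} (ha : Good D a) (x : (ZMod D)ˣ) : T D a (-1 * x) = -T D a x := by
  unfold T
  rw [← Finset.sum_neg_distrib]
  refine Finset.sum_congr rfl (fun i _ => ?_)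
  rw [fract_cc D x (ha.1 i), Int.fract_neg]
  · ring
  · intro h
    exact ha.2.1 i ((isInt_mul D x (ha.1 i)).1 ((isInt_iff_fract _).2 h))

theorem P_cc {a : ι → ℚ} (hlev : ∀ i, Lev D (a i)) (x : (ZMod D)ˣ) :
    P D a (-1 * x) = P D (fun i => -a i) x := by
  unfold P
  refine Finset.prod_congr rfl (fun i _ => ?_)
  rw [gam_congr (fract_cc D x (hlev i)), mul_neg]

/-- The space of the functions a multiple of which comes from a good family. -/
def M : Submodule ℚ ((ZMod D)ˣ → ℚ) where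
  carrier := {f | ∃ (ι : Type) (_ : Fintype ι) (a : ι → ℚ) (N : ℕ), 0 < N ∧ Good D a ∧
    ∀ x, (N : ℚ) * f x = T D a x}
  add_mem' := by
    rintro f g ⟨ι, _, a, N, hN, ha, hf⟩ ⟨κ, _, b, K, hK, hb, hg⟩
    refine ⟨(ι × Fin K) ⊕ (κ × Fin N), inferInstance, _, N * K, Nat.mul_pos hN hK,
      good_sum D (good_rep D K ha) (good_rep D N hb), fun x => ?_⟩
    rw [T_sum, T_rep, T_rep, ← hf, ← hg, Pi.add_apply]
    push_cast
    ring
  zero_mem' := by
    refine ⟨Empty, inferInstance, (fun e => e.elim : Empty → ℚ), 1, one_pos, ⟨fun e => e.elim,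
      fun e => e.elim, fun x => ?_⟩, fun x => ?_⟩
    · unfold P
      rw [Finset.univ_eq_empty, Finset.prod_empty]
      exact isAlgebraic_one
    · unfold T
      rw [Finset.univ_eq_empty, Finset.sum_empty, Pi.zero_apply, mul_zero]
  smul_mem' := by
    rintro q f ⟨ι, _, a, N, hN, ha, hf⟩
    have hq : (q.den : ℚ) * q = q.num := by
      rw [mul_comm]
      exact Rat.mul_den_eq_num q
    rcases le_or_gt 0 q.num with h | h
    · refine ⟨ι × Fin q.num.toNat, inferInstance, _, N * q.den, Nat.mul_pos hN q.den_pos,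
        good_rep D _ ha, fun x => ?_⟩
      rw [T_rep, ← hf, Pi.smul_apply, smul_eq_mul]
      have h1 : ((q.num.toNat : ℕ) : ℚ) = q.num := by
        exact_mod_cast Int.toNat_of_nonneg h
      rw [h1, ← hq]
      push_cast
      ring
    · refine ⟨ι × Fin (-q.num).toNat, inferInstance, _, N * q.den, Nat.mul_pos hN q.den_pos,
        good_rep D _ (good_neg D ha), fun x => ?_⟩
      rw [T_rep D _ (fun i => -a i), T_neg D ha.2.1 ha.1, ← hf, Pi.smul_apply, smul_eq_mul]
      have h1 : (((-q.num).toNat : ℕ) : ℚ) = -q.num := by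
        have : (((-q.num).toNat : ℕ) : ℤ) = -q.num := Int.toNat_of_nonneg (by omega)
        exact_mod_cast this
      rw [h1, ← hq]
      push_cast
      ring

theorem mem_M (f : (ZMod D)ˣ → ℚ) : f ∈ M D ↔ ∃ (ι : Type) (_ : Fintype ι) (a : ι → ℚ) (N : ℕ),
    0 < N ∧ Good D a ∧ ∀ x, (N : ℚ) * f x = T D a x := Iff.rfl

theorem M_stable (f : (ZMod D)ˣ → ℚ) (hf : f ∈ M D) (g : (ZMod D)ˣ) :
    (fun x => f (g * x)) ∈ M D := by
  obtain ⟨ι, _, a, N, hN, ha, hf⟩ := hf
  refine ⟨ι, inferInstance, _, N, hN, good_mul D g ha, fun x => ?_⟩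
  rw [T_mul D g ha.1, ← hf]

theorem M_anti (f : (ZMod D)ˣ → ℚ) (hf : f ∈ M D) (x : (ZMod D)ˣ) : f (-1 * x) = -f x := by
  obtain ⟨ι, _, a, N, hN, ha, hf⟩ := hf
  have h1 := hf (-1 * x)
  rw [T_cc D ha, ← hf] at h1
  have hN' : (N : ℚ) ≠ 0 := by exact_mod_cast hN.ne'
  apply mul_left_cancel₀ hN'
  rw [h1]
  ring

theorem M_small (hne : M D ≠ ⊥) :
    ∃ f ∈ M D, f ≠ 0 ∧ ∀ x, f x = 0 ∨ f x = 1 ∨ f x = -1 :=
  Pool.Agent.H868R3.GPC.exists_small (-1) (M D) (M_stable D) (M_anti D) hne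

/-- If all the conjugate products are algebraic, there are no integers in the family. -/
theorem no_int {a : ι → ℚ} (hlev : ∀ i, Lev D (a i)) (h : ∀ x, IsAlgebraic ℚ (P D a x)) (i : ι) :
    ¬ IsInt (a i) := by
  classical
  intro hi
  obtain ⟨α, hα, hα0, h1⟩ := P_mul_neg D a 1 hlev
  rw [← P_cc D hlev 1] at h1
  set n := (Finset.univ.filter (fun i => IsInt (a i))).card with hn
  have hpos : 0 < n := by
    rw [hn]
    exact Finset.card_pos.2 ⟨i, Finset.mem_filter.2 ⟨Finset.mem_univ i, hi⟩⟩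
  have h2 : Real.pi ^ n = (P D a 1 * P D a (-1 * 1))⁻¹ * α := by
    rw [← h1, inv_mul_cancel_left₀ (mul_ne_zero (P_ne D a _) (P_ne D a _))]
  have h3 : IsAlgebraic ℚ (Real.pi ^ n) := by
    rw [h2]
    exact ((h _).mul (h _)).inv.mul hα
  exact Pool.Agent.H340R2.LW.transcendental_pi (h3.of_pow hpos)

end

end Pool.Agent.H868R3.GAM
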