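import Mathlib
import Pool.Agent.H868R3.GPC.SmallMain

/-!
# Explicit small vectors in stable spaces of antisymmetric functions on an abelian group
-/

set_option autoImplicit false
set_option linter.unusedSectionVars false
set_option linter.unusedVariables false

namespace Pool.Agent.H868R3.GAM

open Module Pool.Agent.H868R3.GPC

variable {G : Type*} [CommGroup G]

/-- The quotient by `H` is cyclic and generated by the class of `g`. -/
def Generates (H : Subgroup G) (g : G) : Prop := ∀ x : G, ∃ j : ℕ, x⁻¹ * g ^ j ∈ H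

open Classical in
/-- The elementary function of the cyclic quotient by `H`, with respect to the generator `g`. Let
`k` be half the order of the quotient. The function is the sum, over all sets `A` of odd prime
divisors of `k`, of the indicator function of the coset `g ^ (∑_{p ∈ A} k / p) H` minus the
indicator function of the coset `c g ^ (∑_{p ∈ A} k / p) H`. -/
noncomputable def shape (c : G) (H : Subgroup G) (g x : G) : ℚ :=
  ∑ A ∈ ((H.index / 2).primeFactors.filter (fun p => p ≠ 2)).powerset,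
    ((if x⁻¹ * g ^ (∑ p ∈ A, H.index / 2 / p) ∈ H then (1 : ℚ) else 0) -
      (if x⁻¹ * (c * g ^ (∑ p ∈ A, H.index / 2 / p)) ∈ H then (1 : ℚ) else 0))

variable [Finite G]

/-- Every nonzero translation-invariant rational space of functions `f` on a finite abelian group
with `f (c x) = - f x` contains the elementary functions of a cyclic quotient, with respect to
all the generators. -/
theorem exists_shape (c : G) (M : Submodule ℚ (G → ℚ))
    (hM : ∀ f ∈ M, ∀ g : G, (fun x => f (g * x)) ∈ M)
    (hanti : ∀ f ∈ M, ∀ x, f (c * x) = -f x) (hne : M ≠ ⊥) :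
    ∃ H : Subgroup G, c ∉ H ∧ (∃ g, Generates H g) ∧ ∀ g, Generates H g →
      (fun x => shape c H g x) ∈ M ∧ (∀ x, shape c H g x = 0 ∨ shape c H g x = 1 ∨
        shape c H g x = -1) ∧ shape c H g 1 ≠ 0 := by
  classical
  have hSne : ext M ≠ ⊥ := by
    obtain ⟨f, hf, hf0⟩ := Submodule.exists_mem_ne_zero_of_ne_bot hne
    intro h
    have h1 : (fun x => ((f x : ℚ) : AlgebraicClosure ℚ)) ∈ ext M :=
      Submodule.subset_span ⟨f, hf, rfl⟩
    rw [h, Submodule.mem_bot] at h1
    apply hf0
    funext x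
    have h2 := congrFun h1 x
    exact Rat.cast_eq_zero.1 h2
  obtain ⟨χ, hχ⟩ := exists_char (ext M) (fun f hf g => tr_mem M hM f hf g) hSne
  have hc : χ c = -1 := by
    have h1 := anti_mem c M hanti _ hχ 1
    rw [mul_one, map_one] at h1
    exact h1
  let χ' : G →* (AlgebraicClosure ℚ)ˣ := χ.toHomUnits
  have hχ' : ∀ g, ((χ' g : (AlgebraicClosure ℚ)ˣ) : AlgebraicClosure ℚ) = χ g := fun g => rfl
  have hmem : ∀ g, g ∈ χ'.ker ↔ χ g = 1 := by
    intro g
    rw [MonoidHom.mem_ker, Units.ext_iff, hχ', Units.val_one]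
  have hmem2 : ∀ x y, x⁻¹ * y ∈ χ'.ker ↔ χ x = χ y := by
    intro x y
    rw [MonoidHom.mem_ker, map_mul, map_inv, inv_mul_eq_one, Units.ext_iff, hχ', hχ']
  have hfin : Finite χ'.range := by
    have : Finite (Set.range χ') := Set.finite_range χ'
    exact this
  have hcyc : IsCyclic χ'.range := isCyclic_subgroup_units χ'.range
  have hone : (1 : AlgebraicClosure ℚ) ≠ -1 := by norm_num
  refine ⟨χ'.ker, ?_, ?_, ?_⟩
  · rw [hmem, hc]
    exact hone.symm
  · obtain ⟨u, hu⟩ := IsCyclic.exists_monoid_generator (α := χ'.range)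
    obtain ⟨g₀, hg₀⟩ := u.2
    refine ⟨g₀, fun x => ?_⟩
    obtain ⟨j, hj⟩ := Submonoid.mem_powers_iff _ _ |>.1 (hu ⟨χ' x, x, rfl⟩)
    refine ⟨j, ?_⟩
    have h1 : (u.1) ^ j = χ' x := congrArg Subtype.val hj
    rw [MonoidHom.mem_ker, map_mul, map_inv, map_pow, hg₀, h1, inv_mul_cancel]
  · intro g₀ hg₀
    set ζ : AlgebraicClosure ℚ := χ g₀ with hζdef
    set n := orderOf ζ with hn
    have hgen' : ∀ g, ∃ j : ℕ, χ g = ζ ^ j := by
      intro g
      obtain ⟨j, hj⟩ := hg₀ g
      refine ⟨j, ?_⟩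
      rw [hmem2, map_pow] at hj
      exact hj
    have hgen : ∀ g, ∃ j : ℤ, χ g = ζ ^ j := by
      intro g
      obtain ⟨j, hj⟩ := hgen' g
      exact ⟨j, by rw [hj, zpow_natCast]⟩
    have hn0 : n ≠ 0 := by
      have h1 : ζ ^ (Nat.card G) = 1 := by
        rw [hζdef, ← map_pow, pow_card_eq_one', map_one]
      have h2 : 0 < orderOf ζ := orderOf_pos_iff.2 (isOfFinOrder_iff_pow_eq_one.2
        ⟨Nat.card G, Nat.card_pos, h1⟩)
      omega
    have hpn : ∀ g, χ g ^ n = 1 := by
      intro g
      obtain ⟨j, hj⟩ := hgen g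
      rw [hj, ← zpow_natCast, ← zpow_mul, mul_comm, zpow_mul, zpow_natCast, pow_orderOf_eq_one,
        one_zpow]
    have heven : Even n := by
      have h1 := hpn c
      rw [hc] at h1
      by_contra h2
      rw [Nat.not_even_iff_odd] at h2
      rw [h2.neg_one_pow] at h1
      norm_num at h1
    obtain ⟨m, hm'⟩ := heven
    have hm2 : n = 2 * m := by omega
    have hm : m ≠ 0 := by omega
    have hζ : IsPrimitiveRoot ζ (2 * m) := by
      rw [← hm2]
      exact IsPrimitiveRoot.orderOf ζ
    have hindex : χ'.ker.index = n := by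
      rw [Subgroup.index_ker]
      have h1 : ∀ y : χ'.range, y ∈ Subgroup.zpowers (⟨χ' g₀, g₀, rfl⟩ : χ'.range) := by
        rintro ⟨_, x, rfl⟩
        obtain ⟨j, hj⟩ := hgen x
        refine Subgroup.mem_zpowers_iff.2 ⟨j, ?_⟩
        apply Subtype.ext
        apply Units.ext
        change (((χ' g₀) ^ j : (AlgebraicClosure ℚ)ˣ) : AlgebraicClosure ℚ) = χ x
        rw [hj, Units.val_zpow_eq_zpow_val, hχ']
      rw [← orderOf_eq_card_of_forall_mem_zpowers h1, hn, ← Subgroup.orderOf_coe]
      change orderOf (χ' g₀) = orderOf ζ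
      rw [← orderOf_units, hχ']
    have hidx2 : χ'.ker.index / 2 = m := by
      rw [hindex, hm2]
      omega
    have hsh : ∀ x, shape c χ'.ker g₀ x = small m ζ (χ x) := by
      intro x
      unfold shape small oddPrimes expo
      rw [hidx2]
      refine Finset.sum_congr rfl (fun A _ => ?_)
      have e1 : (x⁻¹ * g₀ ^ (∑ p ∈ A, m / p) ∈ χ'.ker) ↔ (χ x = ζ ^ (∑ p ∈ A, m / p)) := by
        rw [hmem2, map_pow]
      have e2 : (x⁻¹ * (c * g₀ ^ (∑ p ∈ A, m / p)) ∈ χ'.ker) ↔
          (χ x = -ζ ^ (∑ p ∈ A, m / p)) := by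
        rw [hmem2, map_mul, map_pow, hc, neg_one_mul]
      congr 1
      · by_cases h : χ x = ζ ^ (∑ p ∈ A, m / p)
        · rw [if_pos (e1.2 h), if_pos h]
        · rw [if_neg (fun h' => h (e1.1 h')), if_neg h]
      · by_cases h : χ x = -ζ ^ (∑ p ∈ A, m / p)
        · rw [if_pos (e2.2 h), if_pos h]
        · rw [if_neg (fun h' => h (e2.1 h')), if_neg h]
    have hpow : ∀ k : ℕ, k.Coprime (2 * m) → (fun x => χ x ^ k) ∈ ext M := by
      intro k hk
      have i1 : Algebra.IsAlgebraic ℚ (AlgebraicClosure ℚ) := AlgebraicClosure.isAlgebraic ℚ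
      have i2 : IsAlgClosure ℚ (AlgebraicClosure ℚ) := ⟨inferInstance, inferInstance⟩
      have i3 : Normal ℚ (AlgebraicClosure ℚ) := IsAlgClosure.normal ℚ (AlgebraicClosure ℚ)
      have h2m : 0 < 2 * m := by omega
      have h1 : minpoly ℚ (ζ ^ k) = minpoly ℚ ζ := by
        rw [← Polynomial.cyclotomic_eq_minpoly_rat hζ h2m,
          ← Polynomial.cyclotomic_eq_minpoly_rat (hζ.pow_of_coprime k hk) h2m]
      obtain ⟨σ, hσ⟩ := isConjRoot_iff_exists_algEquiv.1
        (show IsConjRoot ℚ (ζ ^ k) ζ from h1)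
      have h2 := gal_mem M σ _ hχ
      have h3 : (fun x => σ (χ x)) = fun x => χ x ^ k := by
        funext x
        obtain ⟨j, hj⟩ := hgen x
        rw [hj, map_zpow₀, hσ, ← zpow_natCast, ← zpow_natCast, ← zpow_mul, ← zpow_mul, mul_comm]
      rw [h3] at h2
      exact h2
    refine ⟨?_, fun x => ?_, ?_⟩
    · have h1 : (fun x => ((small m ζ (χ x) : ℚ) : AlgebraicClosure ℚ)) ∈ ext M := by
        have h2 : (fun x => ((small m ζ (χ x) : ℚ) : AlgebraicClosure ℚ)) =
            ∑ k ∈ Finset.range (2 * m),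
              ((1 / ((2 * m : ℕ) : AlgebraicClosure ℚ)) * fc m ζ k) • (fun x => χ x ^ k) := by
          funext x
          rw [Finset.sum_apply, small_fourier hm hζ (χ x) (by rw [← hm2]; exact hpn x)]
          rfl
        rw [h2]
        refine Submodule.sum_mem _ fun k _ => ?_
        by_cases hk : k.Coprime (2 * m)
        · exact Submodule.smul_mem _ _ (hpow k hk)
        · rw [fc_eq_zero hm hζ k hk, mul_zero, zero_smul]
          exact Submodule.zero_mem _
      have h2 := Pool.Agent.H204R3.CM.span_descent (M : Set (G → ℚ))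
        (fun x => small m ζ (χ x)) h1
      rw [Submodule.span_eq] at h2
      have h3 : (fun x => shape c χ'.ker g₀ x) = (fun x => small m ζ (χ x)) := funext hsh
      rw [h3]
      exact h2
    · rw [hsh]
      exact small_values hm hζ (χ x)
    · rw [hsh, map_one]
      exact small_one hm hζ

end Pool.Agent.H868R3.GAM
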